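import Mathlib
import Pool.Agent.W_MP_f2b0dc_al.Defs

/-!
# Free products from wreath products

If the restricted regular wreath product of two weakly sofic groups is weakly sofic, then so is the
free product of every family of weakly sofic groups.
-/

namespace Pool.Agent.W_f2b0dc_h28

open Pool.Agent.W_MP_f2b0dc_al Monoid Monoid.CoprodI RegularWreathProduct

universe u v w

/-- The restricted regular wreath product of `H` and `G`: the pairs `(f, g)` with `f : G → H` of
finite support and `g : G`. -/
def RestrictedWreath (H : Type u) (G : Type v) [Group H] [Group G] : Subgroup (H ≀ᵣ G) where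
  carrier := {x | (Function.mulSupport x.left).Finite}
  one_mem' := by simp
  mul_mem' := by
    intro a b ha hb
    have h1 : (Function.mulSupport fun x => b.left (a.right⁻¹ * x)).Finite := by
      have : (Function.mulSupport fun x => b.left (a.right⁻¹ * x))
          ⊆ (fun y => a.right * y) '' (Function.mulSupport b.left) := by
        intro x hx
        exact ⟨a.right⁻¹ * x, hx, by simp⟩
      exact (hb.image _).subset this
    refine (ha.union h1).subset ?_
    exact Function.mulSupport_mul _ _
  inv_mem' := by
    intro a ha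
    have : (Function.mulSupport (a⁻¹).left)
        ⊆ (fun y => a.right⁻¹ * y) '' (Function.mulSupport a.left) := by
      intro x hx
      refine ⟨a.right * x, ?_, by simp⟩
      intro h
      apply hx
      simp [h]
    exact (ha.image _).subset this

/-! ### Permanence properties of weakly sofic groups -/

lemma IsBiInvMetric.self {H : Type*} [Group H] {d : H → H → ℝ} (hd : IsBiInvMetric d) (a : H) :
    d a a = 0 := (hd.eq_zero a a).2 rfl

lemma IsBiInvMetric.nonneg {H : Type*} [Group H] {d : H → H → ℝ} (hd : IsBiInvMetric d)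
    (a b : H) : 0 ≤ d a b := by
  have h1 := hd.triangle a b a
  rw [IsBiInvMetric.self hd, hd.symm b a] at h1
  linarith

/-- A group with enough homomorphisms to weakly sofic groups is weakly sofic. -/
lemma weaklySofic_of_homs {G : Type u} [Group G]
    (h : ∀ F : Finset G, ∃ (B : Type v) (_ : Group B) (f : G →* B), WeaklySofic B ∧
      ∀ g ∈ F, g ≠ 1 → f g ≠ 1) : WeaklySofic G := by
  classical
  intro F ε hε
  obtain ⟨B, _, f, hB, hf⟩ := h F
  obtain ⟨H, _, _, d, φ, hd, hφ, hφ1⟩ := hB (F.image f) ε hε
  refine ⟨H, inferInstance, inferInstance, d, fun g => φ (f g), hd, ?_, ?_⟩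
  · intro g hg k hk hgk
    have := hφ (f g) (Finset.mem_image_of_mem f hg) (f k) (Finset.mem_image_of_mem f hk)
      (by rw [← map_mul]; exact Finset.mem_image_of_mem f hgk)
    simpa [map_mul] using this
  · intro g hg hg1
    exact hφ1 (f g) (Finset.mem_image_of_mem f hg) (hf g hg hg1)

/-- Finite groups are weakly sofic. -/
lemma weaklySofic_of_finite (G : Type) [Group G] [Finite G] : WeaklySofic G := by
  classical
  intro F ε hε
  refine ⟨G, inferInstance, inferInstance, fun a b => if a = b then 0 else 1, id, ?_, ?_, ?_⟩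
  · constructor
    · intro a b
      by_cases h : a = b <;> simp [h]
    · intro a b
      by_cases h : a = b
      · simp [h]
      · simp [h, Ne.symm h]
    · intro a b c
      by_cases h1 : a = b
      · subst h1; simp
      · by_cases h2 : b = c
        · subst h2; simp
        · simp only [h1, h2, if_false]
          split_ifs <;> norm_num
    · intro x a b; simp
    · intro x a b; simp
  · intro g _ k _ _
    simp [hε.le]
  · intro g _ hg
    simp [hg]

/-- Products of weakly sofic groups are weakly sofic. -/
lemma weaklySofic_pi {V : Type u} (G : V → Type v) [∀ i, Group (G i)]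
    (h : ∀ i, WeaklySofic (G i)) : WeaklySofic (∀ i, G i) := by
  classical
  intro F ε hε
  -- finitely many coordinates
  have hsep : ∀ g : (∀ i, G i), g ≠ 1 → ∃ i, g i ≠ 1 := by
    intro g hg
    by_contra hcon
    push Not at hcon
    exact hg (funext hcon)
  rcases isEmpty_or_nonempty V with hV | hV
  · refine ⟨Unit, inferInstance, inferInstance, fun _ _ => 0, fun _ => (), ?_, ?_, ?_⟩
    · constructor <;> simp
    · intro g _ k _ _
      exact hε.le
    · intro g _ hg
      exact absurd (Subsingleton.elim g 1) hg
  choose! c hc using hsep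
  let V₀ : Finset V := F.image c
  let n := V₀.card
  let e : Fin n ≃ V₀ := V₀.equivFin.symm
  have hδ : 0 < ε / (n + 1 : ℝ) := by positivity
  have h1 : ∀ j : Fin n, ∃ (H : Type) (_ : Group H) (_ : Finite H) (d : H → H → ℝ)
      (φ : G (e j) → H), IsBiInvMetric d ∧
      (∀ g ∈ F.image (fun g : (∀ i, G i) => g (e j)), ∀ k ∈ F.image (fun g : (∀ i, G i) => g (e j)),
        g * k ∈ F.image (fun g : (∀ i, G i) => g (e j)) → d (φ (g * k)) (φ g * φ k)
          ≤ ε / (n + 1 : ℝ)) ∧
      ∀ g ∈ F.image (fun g : (∀ i, G i) => g (e j)), g ≠ 1 → 1 ≤ d (φ g) 1 := fun j =>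
    h (e j) (F.image fun g => g (e j)) _ hδ
  choose H hH hfin d φ hd hφ hφ1 using h1
  refine ⟨∀ j, H j, inferInstance, inferInstance, fun a b => ∑ j, d j (a j) (b j),
    fun g j => φ j (g (e j)), ?_, ?_, ?_⟩
  · constructor
    · intro a b
      rw [Finset.sum_eq_zero_iff_of_nonneg fun j _ => IsBiInvMetric.nonneg (hd j) _ _]
      constructor
      · intro h2
        funext j
        exact ((hd j).eq_zero _ _).1 (h2 j (Finset.mem_univ j))
      · rintro rfl j _
        exact IsBiInvMetric.self (hd j) _
    · intro a b
      exact Finset.sum_congr rfl fun j _ => (hd j).symm _ _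
    · intro a b c
      rw [← Finset.sum_add_distrib]
      exact Finset.sum_le_sum fun j _ => (hd j).triangle _ _ _
    · intro x a b
      exact Finset.sum_congr rfl fun j _ => (hd j).left _ _ _
    · intro x a b
      exact Finset.sum_congr rfl fun j _ => (hd j).right _ _ _
  · intro g hg k hk hgk
    calc ∑ j, d j (φ j ((g * k) (e j))) (φ j (g (e j)) * φ j (k (e j)))
        ≤ ∑ _j : Fin n, ε / (n + 1 : ℝ) := by
          refine Finset.sum_le_sum fun j _ => ?_
          exact hφ j (g (e j)) (Finset.mem_image_of_mem (fun g : (∀ i, G i) => g (e j)) hg)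
            (k (e j)) (Finset.mem_image_of_mem (fun g : (∀ i, G i) => g (e j)) hk)
            (Finset.mem_image_of_mem (fun g : (∀ i, G i) => g (e j)) hgk)
      _ = n * (ε / (n + 1 : ℝ)) := by simp
      _ ≤ ε := by
          rw [mul_div_assoc', div_le_iff₀ (by positivity)]
          nlinarith
  · intro g hg hg1
    have h2 : c g ∈ V₀ := Finset.mem_image_of_mem c hg
    let j : Fin n := e.symm ⟨c g, h2⟩
    have h3 : (e j : V) = c g := by simp [j]
    have h4 : g (e j) ≠ 1 := by rw [h3]; exact hc g hg1
    calc (1 : ℝ) ≤ d j (φ j (g (e j))) 1 :=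
          hφ1 j (g (e j)) (Finset.mem_image_of_mem (fun g : (∀ i, G i) => g (e j)) hg) h4
      _ ≤ ∑ j, d j (φ j (g (e j))) ((1 : ∀ j, H j) j) :=
          Finset.single_le_sum (f := fun j => d j (φ j (g (e j))) ((1 : ∀ j, H j) j))
            (fun j _ => IsBiInvMetric.nonneg (hd j) _ _) (Finset.mem_univ j)

/-! ### The derivation -/

variable {V : Type u} {Γ : V → Type u} [∀ i, Group (Γ i)] {B : Type u} [Group B]

/-- The lamps: functions from `V` to the group of order two. -/
abbrev Lamp (V : Type u) : Type u := V → Multiplicative (ZMod 2)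

open Classical in
/-- The lamp of colour `i` at the position `b`, minus the one at the position `1`. -/
noncomputable def lampFun (i : V) (b : B) : B → Lamp V := fun q =>
  Pi.mulSingle i (Multiplicative.ofAdd ((if q = b then 1 else 0) + (if q = 1 then 1 else 0)))

lemma lampFun_one (i : V) : lampFun i (1 : B) = 1 := by
  classical
  funext q
  unfold lampFun
  have : ((if q = (1 : B) then (1 : ZMod 2) else 0) + (if q = 1 then 1 else 0)) = 0 := by
    split_ifs <;> decide
  rw [this]
  simp

lemma lampFun_mul (i : V) (a b : B) (q : B) :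
    lampFun i (a * b) q = lampFun i a q * lampFun i b (a⁻¹ * q) := by
  classical
  unfold lampFun
  rw [← Pi.mulSingle_mul, ← ofAdd_add]
  congr 2
  have h1 : (a⁻¹ * q = b) ↔ q = a * b := inv_mul_eq_iff_eq_mul
  have h2 : (a⁻¹ * q = 1) ↔ q = a := by rw [inv_mul_eq_iff_eq_mul, mul_one]
  simp only [h1, h2]
  have : ∀ x y z : ZMod 2, x + z = (y + z) + (x + y) := by decide
  exact this _ _ _

/-- The homomorphism of a vertex group to the wreath product. -/
noncomputable def vertexHom (φ : CoprodI Γ →* B) (i : V) : Γ i →* RestrictedWreath (Lamp V) B where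
  toFun x := ⟨⟨lampFun i (φ (of x)), φ (of x)⟩, by
    classical
    show (Function.mulSupport (lampFun i (φ (of x)))).Finite
    refine Set.Finite.subset (Set.toFinite {φ (of x), 1}) ?_
    intro q hq
    by_contra hcon
    simp only [Set.mem_insert_iff, Set.mem_singleton_iff, not_or] at hcon
    apply hq
    unfold lampFun
    simp [hcon.1, hcon.2]⟩
  map_one' := by
    ext1
    simp only [map_one]
    show (⟨lampFun i (1 : B), 1⟩ : Lamp V ≀ᵣ B) = 1
    rw [lampFun_one]; rfl
  map_mul' x y := by
    ext1
    simp only [map_mul]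
    show (⟨lampFun i (φ (of x) * φ (of y)), φ (of x) * φ (of y)⟩ : Lamp V ≀ᵣ B)
      = ⟨lampFun i (φ (of x)), φ (of x)⟩ * ⟨lampFun i (φ (of y)), φ (of y)⟩
    rw [mul_def]
    ext1
    · funext q
      exact lampFun_mul i _ _ q
    · rfl

/-- The homomorphism of the free product to the wreath product. -/
noncomputable def nextHom (φ : CoprodI Γ →* B) : CoprodI Γ →* RestrictedWreath (Lamp V) B :=
  CoprodI.lift (vertexHom φ)

lemma nextHom_right (φ : CoprodI Γ →* B) (g : CoprodI Γ) : (nextHom φ g : Lamp V ≀ᵣ B).right
    = φ g := by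
  have : ((rightHom : Lamp V ≀ᵣ B →* B).comp ((RestrictedWreath (Lamp V) B).subtype.comp
      (nextHom φ))) = φ := by
    refine CoprodI.ext_hom _ _ fun i => ?_
    ext x
    simp [nextHom, vertexHom]
  exact DFunLike.congr_fun this g

lemma nextHom_of_left (φ : CoprodI Γ →* B) {i : V} (x : Γ i) :
    (nextHom φ (of x) : Lamp V ≀ᵣ B).left = lampFun i (φ (of x)) := by
  simp [nextHom, vertexHom]

lemma nextHom_mul_left (φ : CoprodI Γ →* B) (g h : CoprodI Γ) (q : B) :
    (nextHom φ (g * h) : Lamp V ≀ᵣ B).left q
      = (nextHom φ g : Lamp V ≀ᵣ B).left q * (nextHom φ h : Lamp V ≀ᵣ B).left ((φ g)⁻¹ * q) := by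
  rw [map_mul, Subgroup.coe_mul, mul_left, Pi.mul_apply, nextHom_right]

/-- The product of a list of letters. -/
def lprod (l : List (Σ i, Γ i)) : CoprodI Γ := (l.map fun x => of x.2).prod

/-- Reduced lists of letters. -/
def Red (l : List (Σ i, Γ i)) : Prop :=
  (∀ x ∈ l, x.2 ≠ 1) ∧ l.IsChain fun x y => x.1 ≠ y.1

/-- `φ` is nontrivial on the products of the nonempty reduced lists of length at most `n`. -/
def Sep (φ : CoprodI Γ →* B) (n : ℕ) : Prop :=
  ∀ l : List (Σ i, Γ i), l ≠ [] → Red l → l.length ≤ n → φ (lprod l) ≠ 1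

lemma Red.left {l₁ l₂ : List (Σ i, Γ i)} (h : Red (l₁ ++ l₂)) : Red l₁ :=
  ⟨fun x hx => h.1 x (List.mem_append_left _ hx), h.2.left_of_append⟩

lemma Red.right {l₁ l₂ : List (Σ i, Γ i)} (h : Red (l₁ ++ l₂)) : Red l₂ :=
  ⟨fun x hx => h.1 x (List.mem_append_right _ hx), h.2.right_of_append⟩

/-- The key computation: the lamp of colour `i` at `1`. -/
lemma lamp_one_eq {φ : CoprodI Γ →* B} {n : ℕ} (hφ : Sep φ n) (i : V) :
    ∀ l : List (Σ i, Γ i), Red l → l.length ≤ n → (∀ x ∈ l.head?, x.1 ≠ i) →
      (nextHom φ (lprod l) : Lamp V ≀ᵣ B).left 1 i = 1 := by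
  classical
  intro l
  induction l using List.reverseRecOn with
  | nil => intro _ _ _; simp [lprod]
  | append_singleton l x ih =>
    intro hred hlen hhead
    have hprod : lprod (l ++ [x]) = lprod l * of x.2 := by simp [lprod]
    have hlen' : l.length ≤ n := by
      rw [List.length_append] at hlen; omega
    have hhead' : ∀ y ∈ l.head?, y.1 ≠ i := by
      intro y hy
      apply hhead
      cases l with
      | nil => simp at hy
      | cons a t => simpa using hy
    rw [hprod, nextHom_mul_left, Pi.mul_apply, ih hred.left hlen' hhead', one_mul, mul_one,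
      nextHom_of_left]
    unfold lampFun
    by_cases hx : x.1 = i
    · -- then `l` is not empty
      have hl : l ≠ [] := by
        rintro rfl
        exact hhead x (by simp) hx
      have h1 : φ (lprod l) ≠ 1 := hφ l hl hred.left hlen'
      have h2 : φ (lprod (l ++ [x])) ≠ 1 := hφ _ (by simp) hred hlen
      rw [hprod, map_mul] at h2
      have h3 : ¬ ((φ (lprod l))⁻¹ = φ (of x.2)) := by
        intro h
        apply h2
        rw [← h, mul_inv_cancel]
      have h4 : ¬ ((φ (lprod l))⁻¹ = 1) := by simpa using h1
      simp [h3, h4]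
    · rw [Pi.mulSingle_eq_of_ne (Ne.symm hx)]

/-- One more letter is seen in the wreath product. -/
lemma sep_next {φ : CoprodI Γ →* B} {n : ℕ} (hn : 1 ≤ n) (hφ : Sep φ n) :
    Sep (nextHom φ) (n + 1) := by
  classical
  intro l hl hred hlen h1
  by_cases hle : l.length ≤ n
  · apply hφ l hl hred hle
    rw [← nextHom_right φ (lprod l), h1]; rfl
  · have hlen' : l.length = n + 1 := by omega
    cases l with
    | nil => exact hl rfl
    | cons x t =>
      have ht : t ≠ [] := by
        rintro rfl
        simp at hlen'
        omega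
      have htl : t.length ≤ n := by
        rw [List.length_cons] at hlen'; omega
      have hredt : Red t := Red.right (l₁ := [x]) hred
      have hprod : lprod (x :: t) = of x.2 * lprod t := by simp [lprod]
      -- the lamp of colour `x.1` at the position `φ x`
      have h2 : (nextHom φ (lprod (x :: t)) : Lamp V ≀ᵣ B).left (φ (of x.2)) x.1 = 1 := by
        rw [h1]; rfl
      rw [hprod, nextHom_mul_left, Pi.mul_apply, inv_mul_cancel, nextHom_of_left] at h2
      have h3 : (nextHom φ (lprod t) : Lamp V ≀ᵣ B).left 1 x.1 = 1 := by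
        refine lamp_one_eq hφ x.1 t hredt htl ?_
        intro y hy
        cases t with
        | nil => exact absurd rfl ht
        | cons z s =>
          have h4 : z = y := by simpa using hy
          subst h4
          have h5 := hred.2
          rw [List.isChain_cons_cons] at h5
          exact fun h => h5.1 h.symm
      rw [h3, mul_one] at h2
      have h4 : φ (of x.2) ≠ 1 := by
        have h5 : φ (lprod [x]) ≠ 1 := hφ [x] (by simp) (Red.left (l₂ := t) hred) (by simpa using hn)
        simpa [lprod] using h5
      unfold lampFun at h2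
      simp [h4] at h2

/-! ### Lamps of order two -/

/-- Forget all colours but `i`. -/
def colourHom (V : Type u) (B : Type u) [Group B] (i : V) :
    RestrictedWreath (Lamp V) B →* RestrictedWreath (Multiplicative (ZMod 2)) B where
  toFun x := ⟨⟨fun q => (x : Lamp V ≀ᵣ B).left q i, (x : Lamp V ≀ᵣ B).right⟩, by
    refine Set.Finite.subset x.2 ?_
    intro q hq h
    exact hq (congrFun h i)⟩
  map_one' := rfl
  map_mul' _ _ := rfl

lemma colourHom_injective {V : Type u} {B : Type u} [Group B] [Nonempty V]
    (x : RestrictedWreath (Lamp V) B) (hx : ∀ i, colourHom V B i x = 1) : x = 1 := by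
  ext1
  ext1
  · funext q
    funext i
    have h1 := congrArg (fun y : RestrictedWreath (Multiplicative (ZMod 2)) B =>
      (y : Multiplicative (ZMod 2) ≀ᵣ B).left q) (hx i)
    exact h1
  · obtain ⟨i⟩ := ‹Nonempty V›
    have h1 := congrArg (fun y : RestrictedWreath (Multiplicative (ZMod 2)) B =>
      (y : Multiplicative (ZMod 2) ≀ᵣ B).right) (hx i)
    exact h1

/-- The step of the induction, with lamps of order two. -/
noncomputable def stepHom (φ : CoprodI Γ →* B) :
    CoprodI Γ →* (V → RestrictedWreath (Multiplicative (ZMod 2)) B) :=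
  (MonoidHom.pi fun i => colourHom V B i).comp (nextHom φ)

lemma sep_step {φ : CoprodI Γ →* B} {n : ℕ} (hn : 1 ≤ n) (hφ : Sep φ n) :
    Sep (stepHom φ) (n + 1) := by
  intro l hl hred hlen h1
  have hV : Nonempty V := by
    cases l with
    | nil => exact absurd rfl hl
    | cons x _ => exact ⟨x.1⟩
  apply sep_next hn hφ l hl hred hlen
  exact colourHom_injective _ fun i => congrFun h1 i

/-- The hypothesis: lamplighter groups over weakly sofic groups are weakly sofic. -/
def LamplighterClosed : Prop :=
  ∀ (G : Type u) [Group G], WeaklySofic G →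
    WeaklySofic (RestrictedWreath (Multiplicative (ZMod 2)) G)

lemma exists_sep (hW : LamplighterClosed.{u}) (h : ∀ i, WeaklySofic (Γ i)) (n : ℕ) :
    ∃ (B : Type u) (_ : Group B) (φ : CoprodI Γ →* B), WeaklySofic B ∧ Sep φ (n + 1) := by
  classical
  induction n with
  | zero =>
    refine ⟨∀ i, Γ i, inferInstance, CoprodI.lift fun i => MonoidHom.mulSingle Γ i,
      weaklySofic_pi _ h, ?_⟩
    intro l hl hred hlen h1
    match l, hl, hred, hlen, h1 with
    | [x], _, hred, _, h1 =>
      apply hred.1 x (by simp)
      have h2 := congrFun h1 x.1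
      simpa [lprod] using h2
    | x :: y :: t, _, _, hlen, _ => simp at hlen
  | succ n ih =>
    obtain ⟨B, _, φ, hB, hφ⟩ := ih
    exact ⟨V → RestrictedWreath (Multiplicative (ZMod 2)) B, inferInstance, stepHom φ,
      weaklySofic_pi _ fun _ => hW B hB, sep_step (by omega) hφ⟩

/-- Free products of weakly sofic groups are weakly sofic if lamplighter groups over weakly sofic
groups are. -/
theorem weaklySofic_coprodI (hW : LamplighterClosed.{u}) {V : Type u} (Γ : V → Type u)
    [∀ i, Group (Γ i)] (h : ∀ i, WeaklySofic (Γ i)) : WeaklySofic (CoprodI Γ) := by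
  classical
  apply weaklySofic_of_homs.{u, u}
  intro F
  have hword : ∀ g : CoprodI Γ, ∃ l : List (Σ i, Γ i), Red l ∧ lprod l = g := by
    intro g
    refine ⟨(CoprodI.Word.equiv g).toList, ⟨(CoprodI.Word.equiv g).ne_one,
      (CoprodI.Word.equiv g).chain_ne⟩, ?_⟩
    exact CoprodI.Word.equiv.symm_apply_apply g
  choose L hL hLg using hword
  obtain ⟨B, _, φ, hB, hφ⟩ := exists_sep hW h (∑ g ∈ F, (L g).length)
  refine ⟨B, inferInstance, φ, hB, fun g hg hg1 => ?_⟩
  rw [← hLg g]
  apply hφ (L g) _ (hL g)
  · have : (L g).length ≤ ∑ g ∈ F, (L g).length :=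
      Finset.single_le_sum (f := fun g => (L g).length) (fun _ _ => Nat.zero_le _) hg
    omega
  · intro h0
    apply hg1
    rw [← hLg g, h0]
    simp [lprod]

end Pool.Agent.W_f2b0dc_h28
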